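import Mathlib

/-!
# MP_e1ba20: products of locally symmetric spaces, the counting
-/

set_option autoImplicit false

open Filter Topology

namespace Pool.PRS

/-- the number of `a` with `v a < x` -/
noncomputable def count {α : Type} (v : α → ℝ) (x : ℝ) : ℝ := ({a : α | v a < x}.ncard : ℝ)

section

variable {α β : Type}

theorem count_nonneg (v : α → ℝ) (x : ℝ) : 0 ≤ count v x := Nat.cast_nonneg _

theorem count_mono (v : α → ℝ) (hv : ∀ x, {a | v a < x}.Finite) {x y : ℝ} (h : x ≤ y) :
    count v x ≤ count v y := by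
  unfold count
  exact_mod_cast Set.ncard_le_ncard (fun a (ha : v a < x) => (lt_of_lt_of_le ha h : v a < y)) (hv y)

/-- a bound from the asymptotics -/
theorem count_le (v : α → ℝ) (hv : ∀ x, {a | v a < x}.Finite) (c κ : ℝ) (hc : 0 < c)
    (hA : Tendsto (fun x => count v x * x * Real.exp (-(c * x))) atTop (𝓝 κ)) :
    ∃ C : ℝ, 0 < C ∧ ∀ x : ℝ, 0 ≤ x → count v x ≤ C * Real.exp (c * x) := by
  have h1 := hA.eventually (gt_mem_nhds (lt_add_one κ))
  obtain ⟨x0, hx0⟩ := Filter.eventually_atTop.mp h1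
  set x1 : ℝ := max x0 1 with hx1
  have hx11 : 1 ≤ x1 := le_max_right _ _
  refine ⟨|κ| + 1 + count v x1, by have := count_nonneg v x1; positivity, ?_⟩
  intro x hx
  have hE : 1 ≤ Real.exp (c * x) := Real.one_le_exp (by positivity)
  have hn := count_nonneg v x1
  rcases le_total x x1 with h | h
  · calc count v x ≤ count v x1 := count_mono v hv h
      _ ≤ (|κ| + 1 + count v x1) * 1 := by have := abs_nonneg κ; linarith
      _ ≤ _ := mul_le_mul_of_nonneg_left hE (by positivity)
  · have h2 := hx0 x ((le_max_left _ _).trans h)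
    have hx1' : 1 ≤ x := hx11.trans h
    have h3 : count v x * Real.exp (-(c * x)) ≤ κ + 1 := by
      have h4 : 0 ≤ count v x * Real.exp (-(c * x)) :=
        mul_nonneg (count_nonneg v x) (Real.exp_pos _).le
      nlinarith
    have h5 : count v x ≤ (κ + 1) * Real.exp (c * x) := by
      have h6 := mul_le_mul_of_nonneg_right h3 (Real.exp_pos (c * x)).le
      rw [mul_assoc, ← Real.exp_add, neg_add_cancel, Real.exp_zero, mul_one] at h6
      exact h6
    refine h5.trans (mul_le_mul_of_nonneg_right ?_ (Real.exp_pos _).le)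
    linarith [le_abs_self κ]

/-- a gap above the lower bound -/
theorem gapv (v : α → ℝ) (hv : ∀ x, {a | v a < x}.Finite) (s : ℝ) (hs : 0 < s) (hvs : ∀ a, s ≤ v a) :
    ∃ s' : ℝ, s < s' ∧ ∀ a, v a ≠ s → s' ≤ v a := by
  classical
  by_cases hne : (({a | v a < s + 1 ∧ v a ≠ s} : Set α)).Nonempty
  · have hfin : ({a | v a < s + 1 ∧ v a ≠ s} : Set α).Finite := (hv (s + 1)).subset fun a ha => ha.1
    obtain ⟨a0, ha0, hmin⟩ := hfin.exists_minimalFor v _ hne |>.imp fun a ha => ha
    refine ⟨v a0, lt_of_le_of_ne (hvs a0) (Ne.symm ha0.2), ?_⟩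
    intro a ha
    rcases lt_or_ge (v a) (s + 1) with h | h
    · by_contra hcon
      push Not at hcon
      have := hmin (j := a) ⟨h, ha⟩ hcon.le
      linarith
    · exact ha0.1.le.trans h
  · refine ⟨s + 1, by linarith, ?_⟩
    intro a ha
    by_contra hcon
    push Not at hcon
    exact hne ⟨a, hcon, ha⟩

/-- `T exp (a √T - b T) → 0` -/
theorem small (a b : ℝ) (hb : 0 < b) :
    Tendsto (fun T : ℝ => T * Real.exp (a * √T - b * T)) atTop (𝓝 0) := by
  have h1 : Tendsto (fun T : ℝ => T * Real.exp (-(b / 2) * T)) atTop (𝓝 0) := by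
    have h := (Real.tendsto_pow_mul_exp_neg_atTop_nhds_zero 1).comp
      (tendsto_id.const_mul_atTop (by positivity : (0 : ℝ) < b / 2))
    have h2 := h.const_mul (2 / b)
    rw [mul_zero] at h2
    refine h2.congr fun T => ?_
    simp only [Function.comp, id, pow_one]
    rw [neg_mul, ← mul_assoc, ← mul_assoc]
    have : 2 / b * (b / 2) = 1 := by field_simp
    rw [this, one_mul]
  have h2 := h1.const_mul (Real.exp (a ^ 2 / (2 * b)))
  rw [mul_zero] at h2
  refine squeeze_zero' (eventually_atTop.mpr ⟨0, fun T hT => by positivity⟩)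
    (eventually_atTop.mpr ⟨0, fun T hT => ?_⟩) h2
  have h3 : a * √T - b * T ≤ a ^ 2 / (2 * b) + -(b / 2) * T := by
    have h4 : √T ^ 2 = T := Real.sq_sqrt hT
    have h5 : 0 ≤ (a / b - √T) ^ 2 * (b / 2) := by positivity
    have h6 : (a / b - √T) ^ 2 * (b / 2) = a ^ 2 / (2 * b) - a * √T + (b / 2) * √T ^ 2 := by
      field_simp
      ring
    rw [h6, h4] at h5
    linarith
  calc T * Real.exp (a * √T - b * T) ≤ T * Real.exp (a ^ 2 / (2 * b) + -(b / 2) * T) :=
        mul_le_mul_of_nonneg_left (Real.exp_le_exp.mpr h3) hT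
    _ = _ := by rw [Real.exp_add]; ring

end

end Pool.PRS
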