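import Pool.Agent.H29.PRS.Defs
import Pool.Agent.H79.PRM.All

/-!
# The short form of the definitions is equivalent to the form of `Pool.PRM`
-/

open Polynomial IsDedekindDomain

namespace Pool.PRS

section Selmer

variable {K : Type} [Field K]

theorem cpl_iff {L : Type} [Field L] (O : ValuationSubring L) (ι : K →+* L) :
    Cpl K L O ι ↔ PRM.Cpl K L O ι :=
  ⟨fun h => ⟨h.dvr, h.complete, h.fin, h.dense⟩, fun h => ⟨h.dvr, h.complete, h.fin, h.dense⟩⟩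

theorem sel_eq (f : K[X]) : Sel f = PRM.Sel f := by
  ext ξ
  constructor
  · rintro ⟨u, p, h1, h2, h3, h4⟩
    exact ⟨u, p, h1, h2, h3, fun L _ O ι hc => h4 L O ι ((cpl_iff O ι).2 hc)⟩
  · rintro ⟨u, p, h1, h2, h3, h4⟩
    exact ⟨u, p, h1, h2, h3, fun L _ O ι hc => h4 L O ι ((cpl_iff O ι).1 hc)⟩

theorem nSel_eq (f : K[X]) : nSel f = (PRM.Sel f).ncard := by rw [nSel, sel_eq]

theorem finSel_iff (f : K[X]) : FinSel f ↔ (PRM.Sel f).Finite := by rw [FinSel, sel_eq]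

theorem lawZ_iff (ε : ℝ) (Z : Set K[X]) : LawZ ε Z ↔ PRM.LawZ ε Z := by
  simp only [LawZ, nSel_eq]
  exact Iff.rfl

theorem mw_iff (f : K[X]) : MW f ↔ PRM.MW f := by
  simp only [MW, nSel_eq, finSel_iff]
  exact Iff.rfl

theorem rankZ_iff (ε : ℝ) (Z : Set K[X]) : RankZ ε Z ↔ PRM.RankZ ε Z := by
  simp only [RankZ, mw_iff]
  exact Iff.rfl

theorem posL_iff (g : ℕ) (ε c : ℝ) (Z H : Set K[X]) : PosL g ε c Z H ↔ PRM.PosL g ε c Z H := by
  simp only [PosL, lawZ_iff, rankZ_iff]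
  exact Iff.rfl

theorem reg_eq (v : ValuationSubring K) : Reg v = PRM.Reg v := by
  ext a
  rw [Reg, Subring.mem_iInf]
  constructor
  · intro h w hw
    exact h ⟨w, hw⟩
  · rintro h ⟨w, hw⟩
    exact h w hw

end Selmer

section Data

variable {K : Type} [Field K] {v : ValuationSubring K}

/-- The data in the old form. -/
def old (D : Data (PRM.Reg v) v) : PRM.Data v := ⟨D.T, D.T', D.c, D.γ, D.ρ, D.top⟩

/-- The data in the new form. -/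
def new (D : PRM.Data v) : Data (PRM.Reg v) v := ⟨D.T, D.T', D.c, D.γ, D.ρ, D.top⟩

theorem old_new (D : PRM.Data v) : old (new D) = D := rfl

theorem zer_iff (I : Ideal (PRM.Reg v)) (p : (PRM.Reg v)[X]) : Zer I p ↔ PRM.Zer I p := Iff.rfl

theorem irr_iff (I : Ideal (PRM.Reg v)) (p : (PRM.Reg v)[X]) :
    Irr I p ↔ Irreducible (PRM.md I p) := Iff.rfl

theorem okP_iff (n : ℕ) (I : Ideal (PRM.Reg v)) (p : (PRM.Reg v)[X]) :
    OkP n I p ↔ PRM.OkP n I p := Iff.rfl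

theorem sing_iff (I : Ideal (PRM.Reg v)) (p : (PRM.Reg v)[X]) :
    Sing I p ↔ PRM.Sing I p := Iff.rfl

theorem ok_iff (D : Data (PRM.Reg v) v) (g : ℕ) : D.Ok g ↔ (old D).Ok g := Iff.rfl

theorem tr0_iff (D : Data (PRM.Reg v) v) (g : ℕ) : D.Tr0 g ↔ (old D).Tr0 g := Iff.rfl

theorem top_iff (π : K) (g h : ℕ) (p : (IsLocalRing.ResidueField v)[X]) (f : (PRM.Reg v)[X]) :
    Top π g h p f ↔ PRM.Top π g h p f := Iff.rfl

theorem fam_eq (π : K) (g : ℕ) (D : Data (PRM.Reg v) v) (h : ℕ) :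
    Fam π g D h = PRM.Fam π g (old D) h := rfl

theorem tw_eq (d : PRM.Pl v → PRM.Reg v) (f : (PRM.Reg v)[X]) (S : Finset (PRM.Pl v)) :
    tw K d f S = PRM.tw (PRM.pr d S) f := rfl

theorem sl_eq (T : Finset (PRM.Pl v)) : Sl T = PRM.Sl T := rfl

theorem Tw_eq (D : Data (PRM.Reg v) v) (d : PRM.Pl v → PRM.Reg v) (A : Set (PRM.Reg v)[X]) :
    Tw K D.T d A = PRM.Tw (old D) d A := rfl

theorem lawT_iff (ε : ℝ) (D : Data (PRM.Reg v) v) (d : PRM.Pl v → PRM.Reg v)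
    (f : (PRM.Reg v)[X]) : LawT ε (Sl D.T) (tw K d f) ↔ PRM.LawT ε (old D) d f := by
  simp only [LawT, nSel_eq, finSel_iff]
  exact Iff.rfl

theorem law_iff (π : K) (g : ℕ) (ε : ℝ) (D : Data (PRM.Reg v) v) (d : PRM.Pl v → PRM.Reg v)
    (E : ℕ) : Law π g ε D d E ↔ PRM.Law π g ε (old D) d E := by
  simp only [Law, posL_iff, lawT_iff]
  exact Iff.rfl

theorem selTwo_iff (P : PRM.Pl v) (f : K[X]) : SelTwo P.asIdeal f ↔ PRM.SelTwo P f := by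
  have h : SelTwo P.asIdeal f ↔ nSel f = 2 ∧ ∀ (u : (AdjoinRoot f)ˣ) (p : K[X]),
      QuotientGroup.mk u ∈ Sel f →
    AdjoinRoot.mk f p = (u : AdjoinRoot f) → (¬ ∃ s, f ∣ p - s ^ 2) →
    ∃ (L : Type) (_ : Field L) (O : ValuationSubring L) (ι : K →+* L), PRM.Cpl K L O ι ∧
      PRM.At P O ι ∧ ¬ ∃ s : L[X], f.map ι ∣ p.map ι - s ^ 2 := by
    refine and_congr_right fun _ => forall_congr' fun u => forall_congr' fun p =>
      imp_congr_right fun _ => imp_congr_right fun _ => imp_congr_right fun _ => ?_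
    constructor
    · rintro ⟨L, iL, O, ι, h1, h2, h3⟩
      exact ⟨L, iL, O, ι, (cpl_iff O ι).1 h1, h2, h3⟩
    · rintro ⟨L, iL, O, ι, h1, h2, h3⟩
      exact ⟨L, iL, O, ι, (cpl_iff O ι).2 h1, h2, h3⟩
  rw [h, nSel_eq, sel_eq]
  exact Iff.rfl

theorem ordZ_iff (P : PRM.Pl v) (t : K) : OrdZ P.asIdeal t ↔ PRM.OrdZ P t := Iff.rfl

theorem rich_iff (m : ℕ) (D : Data (PRM.Reg v) v) (P : PRM.Pl v) (f : K[X]) :
    Rich m D.T D.T' P f ↔ PRM.Rich m (old D) P f := by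
  simp only [Rich, nSel_eq, selTwo_iff]
  exact Iff.rfl

theorem TwI_eq (D : Data (PRM.Reg v) v) (P : PRM.Pl v) (d : PRM.Pl v → PRM.Reg v)
    (A : Set (PRM.Reg v)[X]) : TwI K D.T P d A = PRM.TwI (old D) P d A := rfl

theorem posI_iff (m g : ℕ) (D : Data (PRM.Reg v) v) (P : PRM.Pl v) (ε c : ℝ) (Z H : Set K[X]) :
    PosI m g D.T D.T' P ε c Z H ↔ PRM.PosI m g (old D) P ε c Z H := by
  simp only [PosI, rich_iff, mw_iff]
  exact Iff.rfl

theorem multi_iff (m : ℕ) (π : K) (g : ℕ) (ε : ℝ) (D : Data (PRM.Reg v) v) (P : PRM.Pl v)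
    (d : PRM.Pl v → PRM.Reg v) (E : ℕ) :
    Multi m π g ε D P d E ↔ PRM.Multi m π g ε (old D) P d E := by
  simp only [Multi, posI_iff]
  exact Iff.rfl

theorem admTw_iff (π : K) (D : Data (PRM.Reg v) v) (d : PRM.Pl v → PRM.Reg v) (E : ℕ) :
    AdmTw π D d E ↔ PRM.Tws (old D) d ∧ ∀ S ⊆ (old D).T, (PRM.pr d S : K) * π ^ E ∈ v := Iff.rfl

theorem main_of (π : K) (g : ℕ) (h : PRM.Main v π g) : Main (PRM.Reg v) v π g := by
  obtain ⟨A, hA⟩ := h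
  refine ⟨A, fun T' hT' m ε hε => ?_⟩
  obtain ⟨k₀, hk₀⟩ := hA T' hT' m ε hε
  refine ⟨k₀, fun k hk => ?_⟩
  obtain ⟨b, ⟨D, h1, h2, h3, h4, h5⟩, hb⟩ := hk₀ k hk
  refine ⟨b, ⟨new D, ⟨h1, h2, h3, h4⟩, h5⟩, ?_⟩
  rintro D ⟨h1, h2, h3, h4⟩
  obtain ⟨⟨d, E, hd⟩, h⟩ := hb (old D) h1 h2 h3 h4
  refine ⟨⟨d, E, (admTw_iff π D d E).2 hd⟩, fun d E hd => ?_⟩
  obtain ⟨ho, he⟩ := h d E hd.1 hd.2
  exact ⟨fun hk => (law_iff π g ε D d E).2 (ho hk),
    fun hk P hP => (multi_iff m π g ε D P d E).2 (he hk P hP)⟩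

end Data

/-- The main theorem, in the short form. -/
theorem main_thm (F : Type) [Field F] [Finite F] (h2 : (2 : F) ≠ 0) (K : Type) [Field K]
    [Algebra F K] [Algebra.EssFiniteType F K] (htr : Algebra.trdeg F K = 1)
    (v : ValuationSubring K) (hv : v ≠ ⊤) (π : K) (hπ : Unif v π) (g : ℕ) (hg : 1 ≤ g) :
    Main (Reg v) v π g := by
  rw [reg_eq v]
  exact main_of π g (PRM.main_thm F h2 K htr v hv π hπ g hg)

end Pool.PRS
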