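import Pool.Agent.H29.PRS.Base

/-!
# MP_e1ba20: products of locally symmetric spaces, the asymptotics
-/

set_option autoImplicit false

open Filter Topology

namespace Pool.PRS

section

variable {α β : Type}

/-- finiteness -/
theorem fin_prod (v : α → ℝ) (w : β → ℝ) (s σ : ℝ) (hs : 0 < s) (hσ : 0 < σ)
    (hv : ∀ x, {a | v a < x}.Finite) (hw : ∀ x, {b | w b < x}.Finite)
    (hvs : ∀ a, s ≤ v a) (hws : ∀ b, σ ≤ w b) (T : ℝ) :
    {p : α × β | v p.1 * w p.2 < T}.Finite := by
  refine ((hv (T / σ)).prod (hw (T / s))).subset ?_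
  rintro ⟨a, b⟩ h
  have h1 : v a * w b < T := h
  refine ⟨?_, ?_⟩
  · change v a < T / σ
    rw [lt_div_iff₀ hσ]
    exact lt_of_le_of_lt (mul_le_mul_of_nonneg_left (hws b) (hs.le.trans (hvs a))) h1
  · change w b < T / s
    rw [lt_div_iff₀ hs, mul_comm]
    exact lt_of_le_of_lt (mul_le_mul_of_nonneg_right (hvs a) (hσ.le.trans (hws b))) h1

/-- the pairs with `w b = σ` -/
theorem card_left (v : α → ℝ) (w : β → ℝ) (σ : ℝ) (hσ : 0 < σ) (T : ℝ) :
    {p : α × β | w p.2 = σ ∧ v p.1 * w p.2 < T}.ncard =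
      {a | v a < T / σ}.ncard * {b | w b = σ}.ncard := by
  rw [← Set.ncard_prod]
  congr 1
  ext ⟨a, b⟩
  simp only [Set.mem_ofPred_eq, Set.mem_prod]
  constructor
  · rintro ⟨h1, h2⟩
    rw [h1] at h2
    exact ⟨by rwa [lt_div_iff₀ hσ], h1⟩
  · rintro ⟨h1, h2⟩
    rw [h2]
    exact ⟨rfl, by rwa [lt_div_iff₀ hσ] at h1⟩

theorem card_right (v : α → ℝ) (w : β → ℝ) (s : ℝ) (hs : 0 < s) (T : ℝ) :
    {p : α × β | v p.1 = s ∧ v p.1 * w p.2 < T}.ncard =
      {a | v a = s}.ncard * {b | w b < T / s}.ncard := by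
  rw [← Set.ncard_prod]
  congr 1
  ext ⟨a, b⟩
  simp only [Set.mem_ofPred_eq, Set.mem_prod]
  constructor
  · rintro ⟨h1, h2⟩
    rw [h1] at h2
    exact ⟨h1, by rw [lt_div_iff₀ hs, mul_comm]; exact h2⟩
  · rintro ⟨h1, h2⟩
    rw [h1]
    exact ⟨rfl, by rw [lt_div_iff₀ hs, mul_comm] at h2; exact h2⟩

/-- the remaining pairs -/
theorem card_rest (v : α → ℝ) (w : β → ℝ) (s' σ' : ℝ) (hs' : 0 < s') (hσ' : 0 < σ')
    (hv : ∀ x, {a | v a < x}.Finite) (hw : ∀ x, {b | w b < x}.Finite)
    (hv0 : ∀ a, 0 < v a) (hw0 : ∀ b, 0 < w b) (T : ℝ) (hT : 0 < T) :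
    ({p : α × β | s' ≤ v p.1 ∧ σ' ≤ w p.2 ∧ v p.1 * w p.2 < T}.ncard : ℝ) ≤
      count v (T / σ') * count w (√T + 1) + count v (√T + 1) * count w (T / s') := by
  have hsub : {p : α × β | s' ≤ v p.1 ∧ σ' ≤ w p.2 ∧ v p.1 * w p.2 < T} ⊆
      ({a | v a < T / σ'} ×ˢ {b | w b < √T + 1}) ∪ ({a | v a < √T + 1} ×ˢ {b | w b < T / s'}) := by
    rintro ⟨a, b⟩ ⟨h1, h2, h3⟩
    have h1' : s' ≤ v a := h1
    have h2' : σ' ≤ w b := h2
    have h3' : v a * w b < T := h3
    rcases lt_or_ge (w b) (√T + 1) with h | h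
    · left
      refine ⟨?_, h⟩
      change v a < T / σ'
      rw [lt_div_iff₀ hσ']
      exact lt_of_le_of_lt (mul_le_mul_of_nonneg_left h2' (hv0 a).le) h3'
    · right
      refine ⟨?_, ?_⟩
      · change v a < √T + 1
        by_contra hcon
        push Not at hcon
        have h4 : √T * √T = T := Real.mul_self_sqrt hT.le
        have h5 : 0 ≤ √T := Real.sqrt_nonneg T
        nlinarith
      · change w b < T / s'
        rw [lt_div_iff₀ hs', mul_comm]
        exact lt_of_le_of_lt (mul_le_mul_of_nonneg_right h1' (hw0 b).le) h3'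
  have hfin : (({a | v a < T / σ'} ×ˢ {b | w b < √T + 1}) ∪
      ({a | v a < √T + 1} ×ˢ {b | w b < T / s'}) : Set (α × β)).Finite :=
    ((hv _).prod (hw _)).union ((hv _).prod (hw _))
  have h1 := (Set.ncard_le_ncard hsub hfin).trans (Set.ncard_union_le _ _)
  rw [Set.ncard_prod, Set.ncard_prod] at h1
  unfold count
  exact_mod_cast h1

/-- **Asymptotics for a product.** -/
theorem main (v : α → ℝ) (w : β → ℝ) (c s σ κ l : ℝ) (hc : 0 < c) (hs : 0 < s) (hσ : 0 < σ)
    (hv : ∀ x, {a | v a < x}.Finite) (hw : ∀ x, {b | w b < x}.Finite)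
    (hvs : ∀ a, s ≤ v a) (hws : ∀ b, σ ≤ w b)
    (hA : Tendsto (fun x => count v x * x * Real.exp (-(c * σ * x))) atTop (𝓝 κ))
    (hB : Tendsto (fun x => count w x * x * Real.exp (-(c * s * x))) atTop (𝓝 l)) :
    Tendsto (fun T => count (fun p : α × β => v p.1 * w p.2) T * T * Real.exp (-(c * T))) atTop
      (𝓝 (κ * σ * ({b | w b = σ}.ncard : ℝ) + l * s * ({a | v a = s}.ncard : ℝ))) := by
  classical
  have hv0 : ∀ a, 0 < v a := fun a => hs.trans_le (hvs a)
  have hw0 : ∀ b, 0 < w b := fun b => hσ.trans_le (hws b)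
  obtain ⟨s', hs', hgv⟩ := gapv v hv s hs hvs
  obtain ⟨σ', hσ', hgw⟩ := gapv w hw σ hσ hws
  have hs'0 : 0 < s' := hs.trans hs'
  have hσ'0 : 0 < σ' := hσ.trans hσ'
  obtain ⟨C1, hC1, hb1⟩ := count_le v hv (c * σ) κ (by positivity) hA
  obtain ⟨C2, hC2, hb2⟩ := count_le w hw (c * s) l (by positivity) hB
  set m : ℝ := ({a | v a = s}.ncard : ℝ) with hm
  set μ : ℝ := ({b | w b = σ}.ncard : ℝ) with hμ
  -- exact decomposition
  have hdec : ∀ T : ℝ, 0 < T → |count (fun p : α × β => v p.1 * w p.2) T -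
      (count v (T / σ) * μ + m * count w (T / s))| ≤
      m * μ + (count v (T / σ') * count w (√T + 1) + count v (√T + 1) * count w (T / s')) := by
    intro T hT
    have hfin := fin_prod v w s σ hs hσ hv hw hvs hws T
    set S : Set (α × β) := {p : α × β | v p.1 * w p.2 < T} with hS
    set S1 : Set (α × β) := {p : α × β | w p.2 = σ ∧ v p.1 * w p.2 < T} with hS1
    set S2 : Set (α × β) := {p : α × β | v p.1 = s ∧ v p.1 * w p.2 < T} with hS2
    set S3 : Set (α × β) := {p : α × β | s' ≤ v p.1 ∧ σ' ≤ w p.2 ∧ v p.1 * w p.2 < T} with hS3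
    have f1 : S1.Finite := hfin.subset fun p hp => hp.2
    have f2 : S2.Finite := hfin.subset fun p hp => hp.2
    have f3 : S3.Finite := hfin.subset fun p hp => hp.2.2
    have hU : S = S1 ∪ S2 ∪ S3 := by
      ext ⟨a, b⟩
      constructor
      · intro h
        by_cases h1 : w b = σ
        · exact Or.inl (Or.inl ⟨h1, h⟩)
        · by_cases h2 : v a = s
          · exact Or.inl (Or.inr ⟨h2, h⟩)
          · exact Or.inr ⟨hgv a h2, hgw b h1, h⟩
      · rintro ((h | h) | h)
        · exact h.2
        · exact h.2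
        · exact h.2.2
    have hI : (S1 ∩ S2).ncard ≤ {a | v a = s}.ncard * {b | w b = σ}.ncard := by
      rw [← Set.ncard_prod]
      refine Set.ncard_le_ncard ?_ ?_
      · rintro ⟨a, b⟩ ⟨h1, h2⟩
        exact ⟨h2.1, h1.1⟩
      · refine Set.Finite.prod ((hv (s + 1)).subset fun a (ha : v a = s) => ?_)
          ((hw (σ + 1)).subset fun b (hb : w b = σ) => ?_)
        · change v a < s + 1
          linarith
        · change w b < σ + 1
          linarith
    have hd : Disjoint (S1 ∪ S2) S3 := by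
      rw [Set.disjoint_left]
      rintro ⟨a, b⟩ (h | h) ⟨h1, h2, -⟩
      · have h3 : w b = σ := h.1
        have h4 : σ' ≤ w b := h2
        linarith
      · have h3 : v a = s := h.1
        have h4 : s' ≤ v a := h1
        linarith
    have h1 : S.ncard = (S1 ∪ S2).ncard + S3.ncard := by
      rw [hU, Set.ncard_union_eq hd (f1.union f2) f3]
    have h2 : (S1 ∪ S2).ncard + (S1 ∩ S2).ncard = S1.ncard + S2.ncard :=
      Set.ncard_union_add_ncard_inter S1 S2 f1 f2
    have h3 := card_left v w σ hσ T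
    have h4 := card_right v w s hs T
    have h5 := card_rest v w s' σ' hs'0 hσ'0 hv hw hv0 hw0 T hT
    have h1R : (S.ncard : ℝ) = ((S1 ∪ S2).ncard : ℝ) + (S3.ncard : ℝ) := by exact_mod_cast h1
    have h2R : ((S1 ∪ S2).ncard : ℝ) + ((S1 ∩ S2).ncard : ℝ) = (S1.ncard : ℝ) + (S2.ncard : ℝ) := by
      exact_mod_cast h2
    have h3R : (S1.ncard : ℝ) = count v (T / σ) * μ := by
      rw [hμ]
      unfold count
      exact_mod_cast h3
    have h4R : (S2.ncard : ℝ) = m * count w (T / s) := by
      rw [hm]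
      unfold count
      exact_mod_cast h4
    have hIR : ((S1 ∩ S2).ncard : ℝ) ≤ m * μ := by
      rw [hm, hμ]
      exact_mod_cast hI
    have hI0 : (0 : ℝ) ≤ ((S1 ∩ S2).ncard : ℝ) := Nat.cast_nonneg _
    have h30 : (0 : ℝ) ≤ (S3.ncard : ℝ) := Nat.cast_nonneg _
    have hcnt : count (fun p : α × β => v p.1 * w p.2) T = (S.ncard : ℝ) := rfl
    rw [hcnt, abs_le]
    have hmμ : 0 ≤ m * μ := by positivity
    constructor <;> linarith
  -- the error
  have herr : Tendsto (fun T : ℝ => (m * μ + (count v (T / σ') * count w (√T + 1) +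
      count v (√T + 1) * count w (T / s'))) * T * Real.exp (-(c * T))) atTop (𝓝 0) := by
    have e1 := (small 0 c hc).const_mul (m * μ)
    have hb3 : 0 < c - c * σ / σ' := by
      have : c * σ / σ' < c := by
        rw [div_lt_iff₀ hσ'0]
        exact mul_lt_mul_of_pos_left hσ' hc
      linarith
    have hb4 : 0 < c - c * s / s' := by
      have : c * s / s' < c := by
        rw [div_lt_iff₀ hs'0]
        exact mul_lt_mul_of_pos_left hs' hc
      linarith
    have e2 := (small (c * s) (c - c * σ / σ') hb3).const_mul (C1 * C2 * Real.exp (c * s))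
    have e3 := (small (c * σ) (c - c * s / s') hb4).const_mul (C1 * C2 * Real.exp (c * σ))
    have e4 := (e1.add e2).add e3
    simp only [mul_zero, add_zero] at e4
    refine squeeze_zero' (eventually_atTop.mpr ⟨1, fun T hT => ?_⟩)
      (eventually_atTop.mpr ⟨1, fun T hT => ?_⟩) e4
    · have hT0 : 0 ≤ T := by linarith
      have a1 := count_nonneg v (T / σ')
      have a2 := count_nonneg w (√T + 1)
      have a3 := count_nonneg v (√T + 1)
      have a4 := count_nonneg w (T / s')
      positivity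
    · have hT0 : 0 ≤ T := by linarith
      have a1 := hb1 (T / σ') (by positivity)
      have a2 := hb2 (√T + 1) (by positivity)
      have a3 := hb1 (√T + 1) (by positivity)
      have a4 := hb2 (T / s') (by positivity)
      have p1 : count v (T / σ') * count w (√T + 1) ≤
          (C1 * Real.exp (c * σ * (T / σ'))) * (C2 * Real.exp (c * s * (√T + 1))) :=
        mul_le_mul a1 a2 (count_nonneg _ _) (by positivity)
      have p2 : count v (√T + 1) * count w (T / s') ≤
          (C1 * Real.exp (c * σ * (√T + 1))) * (C2 * Real.exp (c * s * (T / s'))) :=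
        mul_le_mul a3 a4 (count_nonneg _ _) (by positivity)
      have hE : 0 ≤ T * Real.exp (-(c * T)) := by positivity
      have q := mul_le_mul_of_nonneg_right (add_le_add (le_refl (m * μ)) (add_le_add p1 p2)) hE
      refine le_trans (le_of_eq (by ring)) (q.trans (le_of_eq ?_))
      have r1 : Real.exp (c * σ * (T / σ')) * Real.exp (c * s * (√T + 1)) * Real.exp (-(c * T)) =
          Real.exp (c * s) * Real.exp (c * s * √T - (c - c * σ / σ') * T) := by
        rw [← Real.exp_add, ← Real.exp_add, ← Real.exp_add]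
        congr 1
        field_simp
        ring
      have r2 : Real.exp (c * σ * (√T + 1)) * Real.exp (c * s * (T / s')) * Real.exp (-(c * T)) =
          Real.exp (c * σ) * Real.exp (c * σ * √T - (c - c * s / s') * T) := by
        rw [← Real.exp_add, ← Real.exp_add, ← Real.exp_add]
        congr 1
        field_simp
        ring
      have r0 : Real.exp (-(c * T)) = Real.exp (0 * √T - c * T) := by
        congr 1
        ring
      calc (m * μ + (C1 * Real.exp (c * σ * (T / σ')) * (C2 * Real.exp (c * s * (√T + 1))) +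
            C1 * Real.exp (c * σ * (√T + 1)) * (C2 * Real.exp (c * s * (T / s'))))) *
            (T * Real.exp (-(c * T))) =
          m * μ * (T * Real.exp (-(c * T))) +
          C1 * C2 * T * (Real.exp (c * σ * (T / σ')) * Real.exp (c * s * (√T + 1)) *
            Real.exp (-(c * T))) +
          C1 * C2 * T * (Real.exp (c * σ * (√T + 1)) * Real.exp (c * s * (T / s')) *
            Real.exp (-(c * T))) := by ring
        _ = _ := by
          rw [r1, r2, r0]
          ring
  -- the main term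
  have hmain : Tendsto (fun T : ℝ => (count v (T / σ) * μ + m * count w (T / s)) * T *
      Real.exp (-(c * T))) atTop (𝓝 (κ * σ * μ + l * s * m)) := by
    have g1 := (hA.comp (tendsto_id.atTop_div_const hσ)).mul_const (σ * μ)
    have g2 := (hB.comp (tendsto_id.atTop_div_const hs)).mul_const (s * m)
    have g3 := g1.add g2
    have e : κ * (σ * μ) + l * (s * m) = κ * σ * μ + l * s * m := by ring
    rw [e] at g3
    refine g3.congr fun T => ?_
    simp only [Function.comp, id]
    have h1 : c * σ * (T / σ) = c * T := by field_simp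
    have h2 : c * s * (T / s) = c * T := by field_simp
    rw [h1, h2]
    field_simp
  -- conclusion
  have hlim : Tendsto (fun T : ℝ => count (fun p : α × β => v p.1 * w p.2) T * T * Real.exp (-(c * T)) -
      (count v (T / σ) * μ + m * count w (T / s)) * T * Real.exp (-(c * T))) atTop (𝓝 0) := by
    refine squeeze_zero_norm' (eventually_atTop.mpr ⟨1, fun T hT => ?_⟩) herr
    have hT0 : 0 < T := by linarith
    have hE : 0 ≤ T * Real.exp (-(c * T)) := by positivity
    rw [Real.norm_eq_abs, ← sub_mul, ← sub_mul, mul_assoc, abs_mul, abs_of_nonneg hE, mul_assoc]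
    exact mul_le_mul_of_nonneg_right (hdec T hT0) hE
  have := hlim.add hmain
  rw [zero_add] at this
  refine this.congr fun T => ?_
  ring

end

end Pool.PRS
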