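import Pool.Agent.H29.PRS.FlatDefs
import Pool.Agent.H29.PRS.Main

/-!
# MP_e1ba20: products of locally symmetric spaces, the statement
-/

set_option autoImplicit false

open Filter Topology

namespace Pool.PRS

theorem final (X Y : FlatSpace) (s σ h κ : ℝ) (hs : IsLeast (Set.range X.vol) s)
    (hσ : IsLeast (Set.range Y.vol) σ) (hh : 0 < h)
    (hX : Tendsto (fun x => X.N x * x * Real.exp (-(h * x))) atTop (𝓝 κ)) :
    (∀ g : ℝ, g * σ < h * s → (∃ C : ℝ, ∀ x : ℝ, 0 ≤ x → Y.N x ≤ C * Real.exp (g * x)) →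
      Tendsto (fun T => (X.prod Y).N T * T * Real.exp (-(h / σ * T))) atTop
        (𝓝 (κ * σ * Y.mult σ))) ∧
    (∀ g l : ℝ, g * σ = h * s → Tendsto (fun x => Y.N x * x * Real.exp (-(g * x))) atTop (𝓝 l) →
      Tendsto (fun T => (X.prod Y).N T * T * Real.exp (-(h / σ * T))) atTop
        (𝓝 (κ * σ * Y.mult σ + l * s * X.mult s))) := by
  obtain ⟨F0, hF0⟩ := hs.1
  obtain ⟨F1, hF1⟩ := hσ.1
  have hs0 : 0 < s := hF0 ▸ X.vol_pos F0
  have hσ0 : 0 < σ := hF1 ▸ Y.vol_pos F1
  have hvs : ∀ a, s ≤ X.vol a := fun a => hs.2 ⟨a, rfl⟩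
  have hws : ∀ b, σ ≤ Y.vol b := fun b => hσ.2 ⟨b, rfl⟩
  have hc : 0 < h / σ := by positivity
  have hcσ : h / σ * σ = h := by field_simp
  have hA : Tendsto (fun x => count X.vol x * x * Real.exp (-(h / σ * σ * x))) atTop (𝓝 κ) := by
    rw [hcσ]
    exact hX
  refine ⟨?_, ?_⟩
  · rintro g hg ⟨C, hC⟩
    have hgs : g < h / σ * s := by
      rw [div_mul_eq_mul_div, lt_div_iff₀ hσ0]
      exact hg
    have hB : Tendsto (fun x => count Y.vol x * x * Real.exp (-(h / σ * s * x))) atTop (𝓝 0) := by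
      have e1 := (small 0 (h / σ * s - g) (by linarith)).const_mul C
      rw [mul_zero] at e1
      refine squeeze_zero' (eventually_atTop.mpr ⟨0, fun x hx => ?_⟩)
        (eventually_atTop.mpr ⟨0, fun x hx => ?_⟩) e1
      · have := count_nonneg Y.vol x
        positivity
      · have h1 : count Y.vol x ≤ C * Real.exp (g * x) := hC x hx
        have hE : 0 ≤ x * Real.exp (-(h / σ * s * x)) := by positivity
        have h2 := mul_le_mul_of_nonneg_right h1 hE
        refine le_trans (le_of_eq (by ring)) (h2.trans (le_of_eq ?_))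
        have h3 : Real.exp (g * x) * Real.exp (-(h / σ * s * x)) =
            Real.exp (0 * √x - (h / σ * s - g) * x) := by
          rw [← Real.exp_add]
          congr 1
          ring
        rw [← h3]
        ring
    have := main X.vol Y.vol (h / σ) s σ κ 0 hc hs0 hσ0 X.finite Y.finite hvs hws hA hB
    rw [zero_mul, zero_mul, add_zero] at this
    exact this
  · intro g l hg hY
    have hgs : h / σ * s = g := by
      rw [div_mul_eq_mul_div, div_eq_iff hσ0.ne']
      exact hg.symm
    have hB : Tendsto (fun x => count Y.vol x * x * Real.exp (-(h / σ * s * x))) atTop (𝓝 l) := by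
      rw [hgs]
      exact hY
    exact main X.vol Y.vol (h / σ) s σ κ l hc hs0 hσ0 X.finite Y.finite hvs hws hA hB

end Pool.PRS
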