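import Mathlib

/-!
# MP_e1ba20: compact flats of a space and of a product, the definitions of the statement
-/

set_option autoImplicit false

namespace Pool.PRS

/-- The compact (maximal) flats of a locally symmetric space `X`, with their volumes: `Flat` is the set
of the compact flats, `vol F > 0` the Riemannian volume of `F`, and only finitely many compact flats
have volume `< T`. -/
structure FlatSpace where
  Flat : Type
  vol : Flat → ℝ
  vol_pos : ∀ F, 0 < vol F
  finite : ∀ T : ℝ, {F : Flat | vol F < T}.Finite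

/-- `N_X(T)`, the number of compact flats of volume `< T` -/
noncomputable def FlatSpace.N (X : FlatSpace) (T : ℝ) : ℝ := ({F : X.Flat | X.vol F < T}.ncard : ℝ)

/-- the number of compact flats of volume `s` -/
noncomputable def FlatSpace.mult (X : FlatSpace) (s : ℝ) : ℝ := ({F : X.Flat | X.vol F = s}.ncard : ℝ)

theorem FlatSpace.lower (X : FlatSpace) : ∃ s : ℝ, 0 < s ∧ ∀ F, s ≤ X.vol F := by
  by_cases h : Nonempty X.Flat
  · obtain ⟨F0⟩ := h
    have hne : ({F : X.Flat | X.vol F < X.vol F0 + 1} : Set X.Flat).Nonempty :=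
      ⟨F0, by change X.vol F0 < X.vol F0 + 1; linarith⟩
    obtain ⟨F1, h1, h2⟩ := Set.exists_min_image _ X.vol (X.finite (X.vol F0 + 1)) hne
    refine ⟨X.vol F1, X.vol_pos F1, fun F => ?_⟩
    rcases lt_or_ge (X.vol F) (X.vol F0 + 1) with h3 | h3
    · exact h2 F h3
    · have h4 : X.vol F1 < X.vol F0 + 1 := h1
      linarith
  · exact ⟨1, one_pos, fun F => (h ⟨F⟩).elim⟩

/-- The product of two locally symmetric spaces: its compact flats are the products `F × F'` of
compact flats of the factors, and the volume of `F × F'` is the product of the volumes. -/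
def FlatSpace.prod (X Y : FlatSpace) : FlatSpace where
  Flat := X.Flat × Y.Flat
  vol := fun F => X.vol F.1 * Y.vol F.2
  vol_pos := fun F => mul_pos (X.vol_pos F.1) (Y.vol_pos F.2)
  finite := by
    intro T
    obtain ⟨s, hs, hvs⟩ := X.lower
    obtain ⟨σ, hσ, hws⟩ := Y.lower
    refine ((X.finite (T / σ)).prod (Y.finite (T / s))).subset ?_
    rintro ⟨a, b⟩ h
    have h1 : X.vol a * Y.vol b < T := h
    refine ⟨?_, ?_⟩
    · change X.vol a < T / σ
      rw [lt_div_iff₀ hσ]
      exact lt_of_le_of_lt (mul_le_mul_of_nonneg_left (hws b) (X.vol_pos a).le) h1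
    · change Y.vol b < T / s
      rw [lt_div_iff₀ hs, mul_comm]
      exact lt_of_le_of_lt (mul_le_mul_of_nonneg_right (hvs a) (Y.vol_pos b).le) h1

end Pool.PRS
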